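import Pool.Agent.Helper38.IA.St

/-! Project IA, module X5 (MP_953b28_co): weights on the crossing edges which balance everything. -/

set_option autoImplicit false

namespace Pool.Agent.Helper87.IA38

open Finset Pool.Agent.Helper93.IA Pool.Agent.Helper38.IA

private theorem sum_bv {α β γ : Type} [Fintype α] [Fintype β] [Fintype γ] [DecidableEq α]
    [DecidableEq β] [DecidableEq γ] (ρ : ℝ) (A : Finset (α × β)) (C : Finset (γ × α))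
    (U1 : Finset α) (U2 : Finset β) (U3 : Finset γ) :
    ∑ a, bv ρ A C U1 U2 U3 a = -(((ins A U1 U2).card - (ins C U3 U1).card : ℝ) / ρ)
      - (((crs A U1 U2).card : ℝ) - (crs C U3 U1).card) := by
  unfold bv
  rw [Finset.sum_sub_distrib, Finset.sum_sub_distrib, sum_d1, sum_d2, Finset.sum_neg_distrib,
    ← Finset.sum_div, Finset.sum_sub_distrib, sum_d1, sum_d2]

private theorem bal_one {ρ : ℝ} (hρ : 0 < ρ) {i1 i2 c1 c2 S1 S2 L : ℝ}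
    (h : S1 - S2 = 1 * (c1 - c2) + 1 * L) (hL : L = -((i1 - i2) / ρ) - (c1 - c2)) :
    i1 + ρ * S1 = i2 + ρ * S2 := by
  rw [hL] at h
  have h1 : ρ * (S1 - S2) = -(i1 - i2) := by
    rw [h]
    field_simp
    ring
  linarith

theorem hX5 : StL1 → StL3 → StT0 → StX1 → StX3 → X4C → StBLX := by
  intro hL1 hL3 hT0 hX1 hX3 hX4 ξ g ρ hξ hξ' hg hg' hρ hρ'
  refine ⟨ρ / 10000, ⌈1000 / ξ⌉₊, by positivity, ?_⟩
  intro α β γ _ _ _ _ _ _ κ n m A0 A B0 B C0 C U1 W1 U2 W2 U3 W3 hκ hκ' hn hLv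
  have hn1 : 1000 ≤ ξ * n := by
    have h := Nat.ceil_le.1 hn
    rw [div_le_iff₀ hξ] at h
    linarith
  have hn0 : (0 : ℝ) < n := by
    by_contra hcon
    push Not at hcon
    have h1 : (n : ℝ) = 0 := le_antisymm hcon (Nat.cast_nonneg n)
    rw [h1] at hn1
    linarith
  have hm0 : (0 : ℝ) < m :=
    Nat.cast_pos.2 (hX1 ξ g ρ hξ hξ' hg hg' hρ hρ' α β γ κ n m A0 A B0 B C0 C U1 W1 U2 W2 U3 W3
      hκ hκ' hn1 hLv).1
  obtain ⟨oA, iA⟩ := hX3 ξ g ρ hξ hξ' hg hg' hρ hρ' α β γ κ n m A0 A B0 B C0 C U1 W1 U2 W2 U3 W3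
      hκ hκ' hn1 hLv
  obtain ⟨oB, iB⟩ := hX3 ξ g ρ hξ hξ' hg hg' hρ hρ' β γ α κ n m B0 B C0 C A0 A U2 W2 U3 W3 U1 W1
      hκ hκ' hn1 (Lv_rot hLv)
  obtain ⟨oC, iC⟩ := hX3 ξ g ρ hξ hξ' hg hg' hρ hρ' γ α β κ n m C0 C A0 A B0 B U3 W3 U1 W1 U2 W2
      hκ hκ' hn1 (Lv_rot (Lv_rot hLv))
  obtain ⟨I, hI1, hI2, hI3, hIc, hW1, hW2, ho, hi, hcd⟩ := hX4 ξ g ρ hξ hξ' hg hg' hρ hρ' α β γ κ
      n m A0 A B0 B C0 C U1 W1 U2 W2 U3 W3 hκ hκ' hn1 hLv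
  obtain ⟨Wsym, W01, -, degA, degB, degC, hbal⟩ :=
    hT0 α β γ (crs A U1 U2) (crs B U2 U3) (crs C U3 U1)
  have hne : Nonempty (α ⊕ β ⊕ γ) := by
    have h1 : 0 < Fintype.card α := by
      rw [hLv.nα]
      exact_mod_cast hn0
    obtain ⟨a⟩ := Fintype.card_pos_iff.1 h1
    exact ⟨Sum.inl a⟩
  -- the right side
  obtain ⟨b, hbA, hbB, hbC⟩ : ∃ b : α ⊕ β ⊕ γ → ℝ,
      (∀ a, b (Sum.inl a) = bv ρ A C U1 U2 U3 a) ∧
      (∀ b', b (Sum.inr (Sum.inl b')) = bv ρ B A U2 U3 U1 b') ∧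
      ∀ c, b (Sum.inr (Sum.inr c)) = bv ρ C B U3 U1 U2 c :=
    ⟨Sum.elim (bv ρ A C U1 U2 U3) (Sum.elim (bv ρ B A U2 U3 U1) (bv ρ C B U3 U1 U2)),
      fun _ => rfl, fun _ => rfl, fun _ => rfl⟩
  have hb0 : ∑ v, b v = 0 := by
    rw [Fintype.sum_sum_type, Fintype.sum_sum_type]
    simp only [hbA, hbB, hbC]
    rw [sum_bv, sum_bv, sum_bv]
    ring
  -- rigidity
  have hrig : ∀ p : α ⊕ β ⊕ γ → ℝ,
      (∀ v, Lap (Wt (crs A U1 U2) (crs B U2 U3) (crs C U3 U1)) p v = 0) → ∀ v y, p v = p y := by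
    intro p hp v y
    have h := hL3 (α ⊕ β ⊕ γ) I (Wt (crs A U1 U2) (crs B U2 U3) (crs C U3 U1)) p m n 0 0 W01 Wsym
      hW1 hW2 hm0 hn0 le_rfl le_rfl ho hi hcd hIc (fun v _ => by rw [hp v]; simp)
      (fun v _ => by rw [hp v]; simp) v y
    have h2 : |p v - p y| = 0 := le_antisymm (by simpa using h) (abs_nonneg _)
    exact sub_eq_zero.1 (abs_eq_zero.1 h2)
  obtain ⟨p, -, hp⟩ := hL1 (α ⊕ β ⊕ γ) (Wt (crs A U1 U2) (crs B U2 U3) (crs C U3 U1)) b Wsym hrig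
    hb0
  have hosc : ∀ x y, |p x - p y| ≤ 1 / 100 := by
    intro x y
    have h := hL3 (α ⊕ β ⊕ γ) I (Wt (crs A U1 U2) (crs B U2 U3) (crs C U3 U1)) p m n (1 / 1000)
      (1 / 10000) W01 Wsym hW1 hW2 hm0 hn0 (by norm_num) (by norm_num) ho hi hcd hIc ?_ ?_ x y
    · refine h.trans ?_
      norm_num
    · rintro (a | b' | c) hv
      · rw [hp, hbA, degA]
        exact oA a (fun h => hv ((hI1 a).2 h))
      · rw [hp, hbB, degB]
        exact oB b' (fun h => hv ((hI2 b').2 h))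
      · rw [hp, hbC, degC]
        exact oC c (fun h => hv ((hI3 c).2 h))
    · rintro (a | b' | c) hv
      · rw [hp, hbA, degA]
        exact iA a ((hI1 a).1 hv)
      · rw [hp, hbB, degB]
        exact iB b' ((hI2 b').1 hv)
      · rw [hp, hbC, degC]
        exact iC c ((hI3 c).1 hv)
  have hbd : ∀ x y, 99 / 100 ≤ 1 + 1 * (p x - p y) ∧ 1 + 1 * (p x - p y) ≤ 101 / 100 := by
    intro x y
    obtain ⟨h1, h2⟩ := abs_le.1 (hosc x y)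
    constructor <;> linarith
  obtain ⟨tA, tB, tC⟩ := hbal p 1 1
  refine ⟨fun a b' => 1 + 1 * (p (Sum.inl a) - p (Sum.inr (Sum.inl b'))),
    fun b' c => 1 + 1 * (p (Sum.inr (Sum.inl b')) - p (Sum.inr (Sum.inr c))),
    fun c a => 1 + 1 * (p (Sum.inr (Sum.inr c)) - p (Sum.inl a)),
    fun _ _ => hbd _ _, fun _ _ => hbd _ _, fun _ _ => hbd _ _, ?_, ?_, ?_⟩
  · intro a
    exact bal_one hρ (tA a) ((hp _).trans (hbA a))
  · intro b'
    exact bal_one hρ (tB b') ((hp _).trans (hbB b'))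
  · intro c
    exact bal_one hρ (tC c) ((hp _).trans (hbC c))

end Pool.Agent.Helper87.IA38
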